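import Pool.Agent.H62.S3.Bxd
import Pool.Agent.H62.BL.Nrs
import Pool.Agent.H35.CF.Fib
import Pool.Agent.H35.CF.Cnt
import Pool.Agent.H62.BL.Rw
import Pool.Agent.H57.GP.Gpv
import Pool.Agent.H57.GP.Tel

/-!
# [H62 S3 BXN] the box inequality for one variable of stage 1 (MP_b39724_nt, stage 3, chapter B, the negligible part `NG`)

For a configuration `b` with labels whose relations `Kc κ₀ b` hold, `sgE κ₀ b` is the value `hat Φ` of an honest homomorphism `Φ : Γ → Du ⋊ P`, unramified outside `S0`, `E` and the support of `b`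
(`hon_lab`), and the sum over the new place `v` is the sum over the primes `w` of the box of `hf s (Φ (F w))`, `hf s r = [r.x = 1] ep (r.n (y s))`, a character of a subgroup. `GLp`, `GPR`, and the mean
is `0`: if `(kv b w) (y s) ≠ 0` then `Φ (t w) = (kv b w, 1)` multiplies `hf s` by a constant `≠ 1`.
* `hf`, `hf_le`, `hf_raw`, `hf_tau`: the function. `hon_lab`: honest. `box_sum`: the sum over the box. `box_le`: one box. `bxn`: the box inequality.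
-/

set_option autoImplicit false

open scoped NumberField commutatorElement
open IsDedekindDomain
open scoped Classical

noncomputable section

namespace H62.S3

open H63.MA H38.BB H38.BG H57.PC H57.BRA H77.WD H77.WE H77.PC3 H35.CF H35.UB H77.S3 H1.S3 H73.S3
  H71.S3 H57.GP H57.AN H62.BL H77.GL

attribute [local instance 50] Fintype.ofFinite

variable {K : Type} [Field K] [NumberField K] {Ω : Type} [Field Ω] [Algebra K Ω]
  {p N : ℕ} {ζ : K} {D : RD0 K p ζ} {Q : DP K Ω} {A : GS D Ω} {P : Type} [Group P]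
  {c : CL p N P} {S : Type} [Group S] [MulDistribMulAction P S] {q : ℕ}

/-- the function of the Frobenius element of the new place -/
def hf (G : SG c S) (s : Px c) (r : Sd P (Du S q 1)) : ℂ :=
  if r.x = 1 then ep q (r.n.ap (gk 1 (G.y s))) else 0

theorem hf_le (G : SG c S) (s : Px c) (r : Sd P (Du S q 1)) : ‖hf G s r‖ ≤ 1 := by
  unfold hf
  split_ifs
  · rw [ep_norm]
  · rw [norm_zero]
    exact zero_le_one

theorem ep_addn [NeZero q] (a b : ZMod q) : ep q (a + b) = ep q a * ep q b := by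
  rw [rayc_std, rayc_std, rayc_std, AddChar.map_add_eq_mul]

theorem ep_onen [NeZero q] (a : ZMod q) : ep q a = 1 ↔ a = 0 := by
  rw [rayc_std]
  constructor
  · intro h
    apply ZMod.injective_stdAddChar
    rw [h, AddChar.map_zero_eq_one]
  · rintro rfl
    exact AddChar.map_zero_eq_one _

/-- a character of a subgroup -/
theorem hf_raw (G : SG c S) (s : Px c) {b : ℕ} (hb : 1 ≤ b) :
    Raw q b (hf (q := q) G s) := by
  refine raw_mono hb ⟨fun _ => 1, fun _ => (Sd.pr (F := P) (N := Du S q 1)).ker,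
    fun _ r => r.n.ap (gk 1 (G.y s)), fun j => ?_, fun j a ha b hb => ?_, fun r => ?_⟩
  · rw [norm_one]
    norm_num
  · have h1 : a.x = 1 := ha
    show ((a * b).n).ap _ = _
    rw [sd_mul]
    show (a.n + a.x • b.n).ap _ = _
    rw [h1, one_smul, ap_add]
  · rw [Fin.sum_univ_one, one_mul]
    unfold hf th
    rfl

/-- the value at the inertia -/
theorem hf_tau [NeZero q] (G : SG c S) (s : Px c) (a : Sd P (Du S q 1)) (ha : a.x = 1)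
    (h : a.n.ap (gk 1 (G.y s)) ≠ 0) :
    ∃ u : ℂ, u ≠ 1 ∧ ∀ y, hf G s (a * y) = u * hf G s y := by
  refine ⟨ep q (a.n.ap (gk 1 (G.y s))), fun h1 => h ((ep_onen _).1 h1), fun y => ?_⟩
  unfold hf
  rw [sd_mul]
  show (if a.x * y.x = 1 then ep q ((a.n + a.x • y.n).ap (gk 1 (G.y s))) else 0) = _
  rw [ha, one_mul, one_smul, ap_add, ep_addn]
  split_ifs
  · rfl
  · rw [mul_zero]

section hon

variable {G : SG c S} {B : SD D Q A} {X : FD A P S} {W : WF A} {k Mw : ℕ} [Finite S] [Finite P]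
  [NeZero q]

theorem hon_lab [IsAlgClosure K Ω] (hp : p.Prime) (hζ : IsPrimitiveRoot ζ p) (hX : X.Ok G B W)
    (hW : W.Ok B k Mw) (hD : Sml p k Mw (Sd P (Du S q 1))) (hE : X.E ⊆ W.Z) {Zc : Finset (Pl K)}
    (hZ : Disjoint Zc X.E) (hZc : Zc ⊆ W.Z) {b : Pl K → Option (La c S q)}
    (hb : ∀ v, v ∉ Zc → b v = none)
    {κ₀ : J0 X → Du S q 1} (hK : Kc B X W κ₀ b) :
    ∃ Φ : Gal(Ω/K) →* Sd P (Du S q 1), Unz W.L (sp Zc b ∪ X.E) Φ ∧ (∀ σ, (Φ σ).x = X.φ σ) ∧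
      hat W.L A Φ = sgE X W κ₀ b := by
  have hsP := sml_P hD
  have hpr := sg_x hX κ₀ b
  have hkey : ∀ v ∈ W.l, sgE X W κ₀ b (wd FreeGroup.of (Sum.elim W.Wv W.Wi) (blA B v)) = 1 := by
    intro v hv
    refine Sd.ext (hK v hv) ?_
    have h1 := DFunLike.congr_fun hpr (wd FreeGroup.of (Sum.elim W.Wv W.Wi) (blA B v))
    rw [rel_hat hW hsP (unz_mono hE hX.unz) v hv] at h1
    exact h1
  have hval : ∀ v, v ∉ X.E → v ∉ sp Zc b → sgE X W κ₀ b (FreeGroup.of (Sum.inl v)) = 1 := by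
    intro v hv hv'
    have h0 : b v = none := by
      by_contra h1
      refine hv' (mem_sp.2 ⟨?_, h1⟩)
      by_contra h2
      exact h1 (hb v h2)
    rw [sg_of, dif_neg fun h3 => hv (inl_J0.1 h3), Sum.elim_inl, Sum.elim_inl, if_neg hv]
    unfold kv
    rw [h0]
    rfl
  obtain ⟨Φ, hΦ, hh⟩ := hW.cr (Sd P (Du S q 1)) hD (sgE X W κ₀ b) (by
      rintro v (h1 | h1)
      · exact hval v (fun h2 => h1 (hE h2)) fun h2 => h1 (hZc (mem_sp.1 h2).1)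
      · exact hval v (fun h2 => hX.es v h2 h1) fun h2 => hW.zs v (hZc (mem_sp.1 h2).1) h1) (by
      intro v hv hs
      have h1 := hkey v ((hW.lz v).2 (Or.inl hv))
      rw [wrd_eq W] at h1
      unfold wrd at h1
      rw [if_neg hs] at h1
      exact h1) (by
      intro v hv
      have h1 := hkey v ((hW.lz v).2 (Or.inr hv))
      rw [wrd_eq W] at h1
      unfold wrd at h1
      rw [if_pos hv] at h1
      exact h1)
  have hx : (Sd.pr (F := P) (N := Du S q 1)).comp Φ = X.φ := by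
    have hu : Unz W.L W.Z ((Sd.pr (F := P) (N := Du S q 1)).comp Φ) := by
      refine ⟨?_, fun v h1 h2 => ?_⟩
      · obtain ⟨F, hF, h⟩ := hΦ.1
        refine ⟨F, hF, fun σ hσ => ?_⟩
        have h1 := h hσ
        rw [MonoidHom.mem_ker] at h1 ⊢
        rw [MonoidHom.comp_apply, h1, map_one]
      · rw [MonoidHom.comp_apply, hΦ.2 v h1 h2, map_one]
    have hc : hat W.L A ((Sd.pr (F := P) (N := Du S q 1)).comp Φ) = hat W.L A X.φ := by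
      rw [← hpr]
      refine Eq.trans ?_ (congrArg _ hh)
      refine FreeGroup.ext_hom _ _ fun j => ?_
      rcases j with v | i
      · rw [MonoidHom.comp_apply, hat_inl, hat_inl]
        rfl
      · rw [MonoidHom.comp_apply, hat_inr, hat_inr]
        rfl
    refine hon_eqU hp hζ W.L A W.Z _ _ hu (unz_mono hE hX.unz) (hsP.1.to_subgroup _)
      (hsP.1.to_subgroup _) (fun v _ => ?_) fun i => ?_
    · have h1 := DFunLike.congr_fun hc (FreeGroup.of (Sum.inl v))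
      rwa [hat_inl, hat_inl] at h1
    · have h1 := DFunLike.congr_fun hc (FreeGroup.of (Sum.inr i))
      rwa [hat_inr, hat_inr] at h1
  refine ⟨Φ, ⟨hΦ.1, fun v h1 h2 => ?_⟩, fun σ => DFunLike.congr_fun hx σ, hh⟩
  rw [Finset.mem_union, not_or] at h2
  by_cases h3 : v ∈ W.Z
  · rw [← hat_inl W.L A Φ v, hh, hval v h2.2 h2.1]
  · exact hΦ.2 v h1 h3

theorem hon_t {Zc : Finset (Pl K)} (hZ : Disjoint Zc X.E) {b : Pl K → Option (La c S q)}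
    {κ₀ : J0 X → Du S q 1} {Φ : Gal(Ω/K) →* Sd P (Du S q 1)}
    (hh : hat W.L A Φ = sgE X W κ₀ b) {v : Pl K} (hv : v ∈ Zc) :
    Φ (W.L.t v) = ⟨kv b v, 1⟩ := by
  have hE : v ∉ X.E := Finset.disjoint_left.1 hZ hv
  rw [← hat_inl W.L A Φ v, hh, sg_of, dif_neg fun h3 => hE (inl_J0.1 h3), Sum.elim_inl,
    Sum.elim_inl, if_neg hE]

theorem hon_w (hW : W.Ok B k Mw) (hD : Sml p k Mw (Sd P (Du S q 1)))
    {b : Pl K → Option (La c S q)} {κ₀ : J0 X → Du S q 1} {Φ : Gal(Ω/K) →* Sd P (Du S q 1)}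
    (hu : Unz W.L W.Z Φ) (hh : hat W.L A Φ = sgE X W κ₀ b) {v : Pl K} (hv : v ∈ W.Z) :
    sgE X W κ₀ b (W.Wv v) = Φ (W.Fr.F v) := by
  rw [← hh]
  exact (hW.rel.2.2.1 _ hD Φ hu).1 v hv

end hon

/-- the sum over the new place is a sum over the primes of the box -/
theorem fr_sum {X : FD A P S} {W : WF A} {T : ℝ} {b : Pl K → Option (La c S q)}
    {lo hi : Fin 1 → ℝ} (hT : T ≤ lo 0) (hall : ∀ w, D.Gd w → (nm w : ℝ) ≤ hi 0 → w ∈ W.Z)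
    (F : Pl K → ℂ) (hF : ∀ w, X.φ (W.Fr.F w) ≠ 1 → F w = 0) :
    ∑ v ∈ (H35.CF.Fr (H35.UB.Zg D W.Z X.E) (PPc X W T) b 1).filter
        (fun v => ∀ k, lo k < nm (v k) ∧ (nm (v k) : ℝ) ≤ hi k), F (v 0) =
      ∑ w ∈ (PI K (lo 0) (hi 0) true).filter
        (fun w => w ∉ D.S0 ∧ w ∉ sp (H35.UB.Zg D W.Z X.E) b ∪ X.E), F w := by
  have hz : ∀ k : Fin 1, k = 0 := fun k => Subsingleton.elim (α := Fin 1) k 0
  have hzg : ∀ w, w ∈ H35.UB.Zg D W.Z X.E ↔ w ∈ W.Z ∧ w ∉ X.E ∧ D.Gd w := by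
    intro w
    unfold H35.UB.Zg
    rw [Finset.mem_filter, Finset.mem_sdiff, and_assoc]
  refine Finset.sum_of_injOn (fun v => v 0) ?_ ?_ ?_ fun _ _ => rfl
  · intro v _ v' _ h
    funext k
    rw [hz k]
    exact h
  · intro v hv
    rw [Finset.mem_coe, Finset.mem_filter, mem_fr] at hv
    obtain ⟨⟨h1, -⟩, h2⟩ := hv
    obtain ⟨h3, h4, h5⟩ := h1 0
    obtain ⟨h6, h7, h8⟩ := (hzg _).1 h3
    rw [Finset.mem_coe, Finset.mem_filter]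
    unfold PI
    rw [Finset.mem_filter, mem_PB, Finset.mem_union, not_or, mem_sp]
    refine ⟨⟨(h2 0).2, (h2 0).1, fun _ => h8.2⟩, h8.1, fun h => h.2 h5, h7⟩
  · intro w hw hn
    by_contra h0
    have hφ : X.φ (W.Fr.F w) = 1 := by
      by_contra h
      exact h0 (hF w h)
    refine hn ⟨fun _ => w, ?_, rfl⟩
    rw [Finset.mem_filter] at hw
    obtain ⟨h1, h2, h3⟩ := hw
    unfold PI at h1
    rw [Finset.mem_filter, mem_PB] at h1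
    rw [Finset.mem_union, not_or, mem_sp] at h3
    have hgd : D.Gd w := ⟨h2, h1.2.2 rfl⟩
    have hZ : w ∈ H35.UB.Zg D W.Z X.E := (hzg w).2 ⟨hall w hgd h1.1, h3.2, hgd⟩
    rw [Finset.mem_coe, Finset.mem_filter, mem_fr]
    refine ⟨⟨fun k => ⟨hZ, ⟨lt_of_le_of_lt hT h1.2.1, hφ⟩, ?_⟩, fun a b _ => (hz a).trans (hz b).symm⟩,
      fun k => ?_⟩
    · by_contra h
      exact h3.1 ⟨hZ, h⟩
    · rw [hz k]
      exact ⟨h1.2.1, h1.1⟩

private theorem bx_int {m : Finset (Pl K)} {lo hi : ℝ} :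
    (PI K lo hi true).filter (fun w => w ∉ D.S0 ∧ w ∉ m) =
      (PB K hi).filter (fun w => D.Gd w ∧ w ∉ m) \ (PB K lo).filter (fun w => D.Gd w ∧ w ∉ m) := by
  ext w
  unfold PI RD0.Gd
  simp only [Finset.mem_filter, Finset.mem_sdiff, mem_PB]
  constructor
  · rintro ⟨⟨h1, h2, h3⟩, h4, h5⟩
    exact ⟨⟨h1, ⟨h4, h3 trivial⟩, h5⟩, fun h => absurd h.1 (not_le.2 h2)⟩
  · rintro ⟨⟨h1, ⟨h2, h3⟩, h4⟩, h5⟩
    refine ⟨⟨h1, ?_, fun _ => h3⟩, h2, h4⟩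
    by_contra h
    exact h5 ⟨not_lt.1 h, ⟨h2, h3⟩, h4⟩

/-- the mean over the conjugates -/
theorem gl_av {L : LDs D Ω} {Fr : FR L} {Mg Cg C' : ℕ} {Y : ℝ} (hgl : GLp p Fr Mg Cg C' Y)
    {H : Type} [Group H] [Finite H] (hH : IsPGroup p H) (hM : Nat.card H ≤ Mg)
    (Φ : Gal(Ω/K) →* H) (m : Finset (Pl K)) (hu : Unz L m Φ) (hm : nr m ≤ Y ^ Cg) (h : H → ℂ)
    (hh : ∀ y, ‖h y‖ ≤ 1) {lo hi : ℝ} (hlh : lo ≤ hi) (h0 : 0 ≤ hi) (h1 : hi ≤ Y ^ Cg) :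
    ‖∑ w ∈ (PI K lo hi true).filter (fun w => w ∉ D.S0 ∧ w ∉ m), h (Φ (Fr.F w))‖ ≤
      (C' * hi ^ (3 / 4 : ℝ) + Real.log Y ^ C') + (Gx Fr m hi Φ h + Gx Fr m lo Φ h) := by
  have h3 := hgl H hH hM Φ m hu hm h hh lo hi true h0 h1
  have h4 : ∑ w ∈ (PI K lo hi true).filter (fun w => w ∉ D.S0 ∧ w ∉ m), h (Φ (Fr.F w)) =
      ∑ w ∈ (PI K lo hi true).filter (fun w => w ∉ D.S0 ∧ w ∉ m),
        (h (Φ (Fr.F w)) - av Φ h (Φ (Fr.F w))) +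
      (∑ w ∈ (PB K hi).filter (fun w => D.Gd w ∧ w ∉ m), av Φ h (Φ (Fr.F w)) -
        ∑ w ∈ (PB K lo).filter (fun w => D.Gd w ∧ w ∉ m), av Φ h (Φ (Fr.F w))) := by
    rw [Finset.sum_sub_distrib]
    have h5 : ∑ w ∈ (PI K lo hi true).filter (fun w => w ∉ D.S0 ∧ w ∉ m),
        av Φ h (Φ (Fr.F w)) =
        ∑ w ∈ (PB K hi).filter (fun w => D.Gd w ∧ w ∉ m), av Φ h (Φ (Fr.F w)) -
        ∑ w ∈ (PB K lo).filter (fun w => D.Gd w ∧ w ∉ m), av Φ h (Φ (Fr.F w)) := by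
      rw [bx_int]
      refine Finset.sum_sdiff_eq_sub ?_
      intro w hw
      rw [Finset.mem_filter, mem_PB] at hw ⊢
      exact ⟨hw.1.trans hlh, hw.2⟩
    rw [h5]
    ring
  rw [h4]
  refine (norm_add_le _ _).trans (add_le_add h3 ?_)
  exact norm_sub_le _ _

/-- one box -/
theorem box_le [Finite S] [Finite P] [IsAlgClosure K Ω] [NeZero q] (hp : p.Prime)
    (hζ : IsPrimitiveRoot ζ p) {G : SG c S} {B : SD D Q A} {X : FD A P S} {W : WF A}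
    {k Mw Mg Cg C' : ℕ} {Y T : ℝ} (hX : X.Ok G B W) (hW : W.Ok B k Mw)
    (hD : Sml p k Mw (Sd P (Du S q 1))) (hE : X.E ⊆ W.Z) (hgl : GLp p W.Fr Mg Cg C' Y)
    (hM : Nat.card (Sd P (Du S q 1)) ≤ Mg) {κ₀ : J0 X → Du S q 1} {s : Px c}
    {b : Pl K → Option (La c S q)} (hb : ∀ v, v ∉ H35.UB.Zg D W.Z X.E → b v = none)
    (hK : Kc B X W κ₀ b) (hs : Sn G (H35.UB.Zg D W.Z X.E) b s) {lo hi : Fin 1 → ℝ}
    (hT : T ≤ lo 0) (hlo : 0 ≤ lo 0) (hlh : lo 0 ≤ hi 0)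
    (hall : ∀ w, D.Gd w → (nm w : ℝ) ≤ hi 0 → w ∈ W.Z)
    (hnr : nr (sp (H35.UB.Zg D W.Z X.E) b ∪ X.E) ≤ Y ^ Cg) (hhi : hi 0 ≤ Y ^ Cg) :
    ∃ Φ : Gal(Ω/K) →* Sd P (Du S q 1), Unz W.L (sp (H35.UB.Zg D W.Z X.E) b ∪ X.E) Φ ∧
      (∃ (τ : Gal(Ω/K)) (u : ℂ), u ≠ 1 ∧ ∀ y, hf G s (Φ τ * y) = u * hf G s y) ∧
      ‖∑ v ∈ (H35.CF.Fr (H35.UB.Zg D W.Z X.E) (PPc X W T) b 1).filter
          (fun v => ∀ k, lo k < nm (v k) ∧ (nm (v k) : ℝ) ≤ hi k),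
        ep q ((sgE X W κ₀ b (W.Wv (v 0))).n.ap (gk 1 (G.y s)))‖ ≤
        (C' * hi 0 ^ (3 / 4 : ℝ) + Real.log Y ^ C') +
          (Gx W.Fr (sp (H35.UB.Zg D W.Z X.E) b ∪ X.E) (hi 0) Φ (hf G s) +
            Gx W.Fr (sp (H35.UB.Zg D W.Z X.E) b ∪ X.E) (lo 0) Φ (hf G s)) := by
  obtain ⟨Zc, hZc⟩ : ∃ Zc, Zc = H35.UB.Zg D W.Z X.E := ⟨_, rfl⟩
  have hzg : ∀ w, w ∈ Zc ↔ w ∈ W.Z ∧ w ∉ X.E ∧ D.Gd w := by
    intro w
    rw [hZc]
    unfold H35.UB.Zg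
    rw [Finset.mem_filter, Finset.mem_sdiff, and_assoc]
  have hdis : Disjoint Zc X.E := Finset.disjoint_left.2 fun w hw => ((hzg w).1 hw).2.1
  have hsub : Zc ⊆ W.Z := fun w hw => ((hzg w).1 hw).1
  have hfr := fr_sum (X := X) (W := W) (b := b) hT hall
  rw [← hZc] at hb hs hnr hfr ⊢
  obtain ⟨Φ, hu, hx, hh⟩ := hon_lab hp hζ hX hW hD hE hdis hsub hb hK
  have huZ : Unz W.L W.Z Φ := unz_mono (Finset.union_subset
    (fun v hv => hsub (mem_sp.1 hv).1) hE) hu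
  refine ⟨Φ, hu, ?_, ?_⟩
  · obtain ⟨w, hw, h0⟩ := hs
    have h1 := hon_t hdis hh hw
    refine ⟨W.L.t w, ?_⟩
    refine hf_tau G s _ ?_ ?_
    · rw [h1]
    · rw [h1]
      exact h0
  · have h1 : ∑ v ∈ (H35.CF.Fr Zc (PPc X W T) b 1).filter
          (fun v => ∀ k, lo k < nm (v k) ∧ (nm (v k) : ℝ) ≤ hi k),
        ep q ((sgE X W κ₀ b (W.Wv (v 0))).n.ap (gk 1 (G.y s))) =
        ∑ v ∈ (H35.CF.Fr Zc (PPc X W T) b 1).filter
          (fun v => ∀ k, lo k < nm (v k) ∧ (nm (v k) : ℝ) ≤ hi k), hf G s (Φ (W.Fr.F (v 0))) := by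
      refine Finset.sum_congr rfl fun v hv => ?_
      obtain ⟨⟨h2, -⟩, -⟩ := (by
        rw [Finset.mem_filter, mem_fr] at hv
        exact hv)
      rw [hon_w hW hD huZ hh (hsub (h2 0).1)]
      unfold hf
      rw [if_pos]
      rw [hx]
      exact (h2 0).2.1.2
    rw [h1, hfr (fun w => hf G s (Φ (W.Fr.F w))) fun w hw => by
      unfold hf
      rw [if_neg]
      rw [hx]
      exact hw]
    exact gl_av hgl hD.1 hM Φ _ hu hnr (hf G s) (hf_le G s) hlh (hlo.trans hlh) hhi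

private theorem bx_two (l : Pl K) : 2 ≤ nm l := by
  have h0 : nm l ≠ 0 := fun h => l.ne_bot (Ideal.absNorm_eq_zero_iff.1 h)
  have h1 : nm l ≠ 1 := fun h => l.isPrime.ne_top (Ideal.absNorm_eq_one_iff.1 h)
  omega

private theorem bx_pow (m : Finset (Pl K)) : (2 : ℝ) ^ m.card ≤ nr m := by
  unfold nr
  rw [← Finset.prod_const]
  exact Finset.prod_le_prod (fun _ _ => by norm_num) fun v _ => by exact_mod_cast bx_two v

private theorem bx_pos (m : Finset (Pl K)) : 0 < nr m :=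
  lt_of_lt_of_le (by positivity) (bx_pow m)

private theorem bx_card {Λ : Type} [Fintype Λ] (Z m : Finset (Pl K)) :
    (((Cf Z Λ).filter fun f => sp Z f = m).card : ℝ) ≤ (Fintype.card Λ : ℝ) ^ m.card := by
  have h1 := cf_prod Z (fun s => if s = m then (1 : ℝ) else 0) (fun (_ : Pl K) (_ : Λ) => (1 : ℝ))
  have h2 : ∑ f ∈ Cf Z Λ, (if sp Z f = m then (1 : ℝ) else 0) * om Z (fun _ _ => (1 : ℝ)) f =
      (((Cf Z Λ).filter fun f => sp Z f = m).card : ℝ) := by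
    rw [Finset.card_filter]
    push_cast
    refine Finset.sum_congr rfl fun f _ => ?_
    rw [om_one, mul_one]
  rw [← h2, h1]
  by_cases hm : m ∈ Z.powerset
  · rw [Finset.sum_eq_single_of_mem m hm fun s _ hs => by rw [if_neg hs, zero_mul]]
    rw [if_pos rfl, one_mul, Finset.prod_const, Finset.sum_const, Finset.card_univ, nsmul_eq_mul,
      mul_one]
  · have h3 : ∀ s ∈ Z.powerset, (if s = m then (1 : ℝ) else 0) * ∏ v ∈ s, ∑ _x : Λ, (1 : ℝ) =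
        0 := by
      intro s hs
      have h4 : s ≠ m := by
        rintro rfl
        exact hm hs
      rw [if_neg h4, zero_mul]
    rw [Finset.sum_eq_zero h3]
    positivity

private theorem bx_exp (k : ℕ) {ε : ℝ} (hε : 0 < ε) :
    ∃ L₀ : ℝ, ∀ L : ℝ, L₀ ≤ L → L ^ k * Real.exp (-(L ^ ε) / 4) ≤ 1 := by
  obtain ⟨j, hj⟩ := exists_nat_ge (((4 * k : ℕ) : ℝ) / ε)
  have h1 := Real.tendsto_pow_mul_exp_neg_atTop_nhds_zero j
  have h3 := h1.comp (tendsto_rpow_atTop hε)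
  obtain ⟨L₀, hL₀⟩ := Filter.eventually_atTop.1
    (h3.eventually_le_const (show (0 : ℝ) < 1 by norm_num))
  refine ⟨max L₀ 1, fun L hL => ?_⟩
  have h5 := hL₀ L (le_of_max_le_left hL)
  have h6 : (1 : ℝ) ≤ L := le_of_max_le_right hL
  have h7 : L ^ (4 * k) ≤ (L ^ ε) ^ j := by
    rw [← Real.rpow_natCast, ← Real.rpow_natCast, ← Real.rpow_mul (by linarith)]
    apply Real.rpow_le_rpow_of_exponent_le h6
    rw [div_le_iff₀ hε] at hj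
    linarith [mul_comm (j : ℝ) ε]
  have h8 : L ^ (4 * k) * Real.exp (-(L ^ ε)) ≤ 1 :=
    (mul_le_mul_of_nonneg_right h7 (Real.exp_pos _).le).trans h5
  have h9 : (L ^ k * Real.exp (-(L ^ ε) / 4)) ^ 4 ≤ 1 := by
    refine le_trans (le_of_eq ?_) h8
    rw [mul_pow, ← pow_mul, mul_comm k 4, ← Real.exp_nat_mul]
    congr 2
    push_cast
    ring
  exact (pow_le_one_iff_of_nonneg (mul_nonneg (pow_nonneg (by linarith) _) (Real.exp_pos _).le)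
    (by norm_num)).1 h9

private theorem bx_er {lo hi T R : ℝ} {C' : ℕ} (hR : 0 ≤ R) (hT : 0 ≤ T) (h1 : Real.exp T ≤ lo)
    (h2 : lo ≤ hi) (h3 : hi ≤ 2 * lo) :
    lo⁻¹ * (C' * hi ^ (3 / 4 : ℝ) + R) ≤ (2 * C' + R) * Real.exp (-T / 4) := by
  have hlo : 0 < lo := (Real.exp_pos T).trans_le h1
  have h4 : lo⁻¹ ≤ Real.exp (-T / 4) := by
    calc lo⁻¹ ≤ (Real.exp T)⁻¹ := inv_anti₀ (Real.exp_pos T) h1
      _ = Real.exp (-T) := (Real.exp_neg T).symm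
      _ ≤ Real.exp (-T / 4) := Real.exp_le_exp.2 (by linarith)
  have h5 : lo⁻¹ * hi ^ (3 / 4 : ℝ) ≤ 2 * Real.exp (-T / 4) := by
    have h6 : hi ^ (3 / 4 : ℝ) ≤ 2 * lo ^ (3 / 4 : ℝ) := by
      calc hi ^ (3 / 4 : ℝ) ≤ (2 * lo) ^ (3 / 4 : ℝ) :=
            Real.rpow_le_rpow (hlo.le.trans h2) h3 (by norm_num)
        _ = 2 ^ (3 / 4 : ℝ) * lo ^ (3 / 4 : ℝ) := Real.mul_rpow (by norm_num) hlo.le
        _ ≤ 2 ^ (1 : ℝ) * lo ^ (3 / 4 : ℝ) := by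
            refine mul_le_mul_of_nonneg_right ?_ (Real.rpow_nonneg hlo.le _)
            exact Real.rpow_le_rpow_of_exponent_le (by norm_num) (by norm_num)
        _ = 2 * lo ^ (3 / 4 : ℝ) := by rw [Real.rpow_one]
    have h7 : lo⁻¹ * lo ^ (3 / 4 : ℝ) = lo ^ (-1 / 4 : ℝ) := by
      rw [← Real.rpow_neg_one lo, ← Real.rpow_add hlo]
      norm_num
    have h8 : lo ^ (-1 / 4 : ℝ) ≤ Real.exp (-T / 4) := by
      rw [Real.rpow_def_of_pos hlo]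
      refine Real.exp_le_exp.2 ?_
      have h9 : T ≤ Real.log lo := (Real.le_log_iff_exp_le hlo).2 h1
      linarith
    calc lo⁻¹ * hi ^ (3 / 4 : ℝ) ≤ lo⁻¹ * (2 * lo ^ (3 / 4 : ℝ)) :=
          mul_le_mul_of_nonneg_left h6 (inv_nonneg.2 hlo.le)
      _ = 2 * (lo⁻¹ * lo ^ (3 / 4 : ℝ)) := by ring
      _ ≤ 2 * Real.exp (-T / 4) := by
          rw [h7]
          linarith
  calc lo⁻¹ * (C' * hi ^ (3 / 4 : ℝ) + R) = C' * (lo⁻¹ * hi ^ (3 / 4 : ℝ)) + R * lo⁻¹ := by ring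
    _ ≤ C' * (2 * Real.exp (-T / 4)) + R * Real.exp (-T / 4) := by gcongr
    _ = _ := by ring

/-- a power with exponent `loglog` is a power of the logarithm -/
private theorem bx_lam (Λ c k : ℕ) {l : ℝ} (hl : 1 ≤ l) (hk : (k : ℝ) ≤ c * Real.log l) :
    (Λ : ℝ) ^ k ≤ l ^ (Λ * c) := by
  have hl0 : 0 < l := by linarith
  calc (Λ : ℝ) ^ k ≤ (Real.exp Λ) ^ k := by
        refine pow_le_pow_left₀ (Nat.cast_nonneg _) ?_ _
        linarith [Real.add_one_le_exp (Λ : ℝ)]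
    _ = Real.exp (k * Λ) := by rw [← Real.exp_nat_mul]
    _ ≤ Real.exp ((c * Real.log l) * Λ) := by gcongr
    _ = Real.exp (((Λ * c : ℕ) : ℝ) * Real.log l) := by
        push_cast
        congr 1
        ring
    _ = _ := by rw [Real.exp_nat_mul, Real.exp_log hl0]

/-- the box inequality for one new place -/
theorem bxn [IsAlgClosure K Ω] [Fintype S] [Fintype P] (hp : p.Prime) (hζ : IsPrimitiveRoot ζ p)
    {κ : ℕ} [NeZero (p ^ κ)] (hG : GPR D Ω (p ^ κ)) (G : SG c S) (B : SD D Q A) (C₁ A' ε : ℝ)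
    (hε : 0 < ε) :
    ∃ Mg Cg : ℕ, ∀ C' : ℕ, ∃ Y₀ : ℝ, ∀ Y : ℝ, Y₀ ≤ Y → ∀ (k Mw : ℕ) (X : FD A P S) (W : WF A),
      X.Ok G B W → W.Ok B k Mw → Sml p k Mw (Sd P (Du S (p ^ κ) 1)) → GLp p W.Fr Mg Cg C' Y →
      X.E ⊆ W.Z → nr X.E ≤ Real.log Y → (∀ v, D.Gd v → (nm v : ℝ) ≤ Y ^ C₁ → v ∈ W.Z) →
      BxN (q := p ^ κ) G B X W (T0 ε Y) (H35.UB.Zg D W.Z X.E) C₁ A' Y := by
  obtain ⟨c₁, hc₁⟩ := exists_nat_ge C₁
  obtain ⟨a₀, ha₀⟩ := exists_nat_ge A'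
  obtain ⟨Λ, hΛ⟩ : ∃ Λ, Λ = Fintype.card (La c S (p ^ κ)) := ⟨_, rfl⟩
  obtain ⟨M, hM⟩ : ∃ M, M = Nat.card (Sd P (Du S (p ^ κ) 1)) := ⟨_, rfl⟩
  obtain ⟨c₂, hc₂⟩ : ∃ c₂, c₂ = Λ * (2 * c₁) + 2 * c₁ + 3 := ⟨_, rfl⟩
  obtain ⟨Y₁, hY₁⟩ := hG (M + 1) c₂ (a₀ + 2) ε hε
  obtain ⟨e, Y₂, hY₂⟩ := nrs K c₂
  refine ⟨M, c₂, fun C' => ?_⟩
  obtain ⟨L₀, hL₀⟩ := bx_exp (C' + 2 + e + (a₀ + 2)) hε
  obtain ⟨L₁, hL₁⟩ : ∃ L₁ : ℝ, L₁ = max L₀ (max 4 (2 * C')) := ⟨_, rfl⟩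
  refine ⟨max 3 (max Y₁ (max Y₂ (Real.exp L₁))), ?_⟩
  intro Y hY k Mw X W hX hW hD hgl hE hEn hall
  have hY3 : 3 ≤ Y := (le_max_left _ _).trans hY
  have hYa : Y₁ ≤ Y := (le_max_left _ _).trans ((le_max_right _ _).trans hY)
  have hYb : Y₂ ≤ Y :=
    (le_max_left _ _).trans ((le_max_right _ _).trans ((le_max_right _ _).trans hY))
  have hYc : Real.exp L₁ ≤ Y :=
    (le_max_right _ _).trans ((le_max_right _ _).trans ((le_max_right _ _).trans hY))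
  have hY1 : 1 ≤ Y := by linarith
  have hY0 : 0 < Y := by linarith
  obtain ⟨l₀, hl₀⟩ : ∃ l₀, l₀ = Real.log Y := ⟨_, rfl⟩
  have hlL : L₁ ≤ l₀ := by
    rw [hl₀, Real.le_log_iff_exp_le (by linarith)]
    exact hYc
  rw [hL₁] at hlL
  have hl0 : L₀ ≤ l₀ := (le_max_left _ _).trans hlL
  have hl4 : 4 ≤ l₀ := (le_max_left _ _).trans ((le_max_right _ _).trans hlL)
  have hlC : 2 * (C' : ℝ) ≤ l₀ := (le_max_right _ _).trans ((le_max_right _ _).trans hlL)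
  have hll : 1 ≤ Real.log l₀ := by
    rw [Real.le_log_iff_exp_le (by linarith)]
    linarith [Real.exp_one_lt_d9]
  have hlY : l₀ ≤ Y := by
    rw [hl₀]
    linarith [Real.log_le_sub_one_of_pos hY0]
  have hcY : Y ^ C₁ ≤ Y ^ c₁ := by
    rw [← Real.rpow_natCast]
    exact Real.rpow_le_rpow_of_exponent_le hY1 hc₁
  have hcY2 : Y ^ c₁ * Y ≤ Y ^ c₂ := by
    rw [← pow_succ]
    refine pow_le_pow_right₀ hY1 ?_
    rw [hc₂]
    omega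
  have hcY3 : Y ^ C₁ ≤ Y ^ c₂ := by
    refine hcY.trans (le_trans ?_ hcY2)
    exact le_mul_of_one_le_right (pow_nonneg hY0.le _) hY1
  unfold BxN
  intro κ₀ s lo hi hlh
  obtain ⟨hT, hlo1, hlo2, hhi⟩ := hlh 0
  obtain ⟨Zc, hZc⟩ : ∃ Zc, Zc = H35.UB.Zg D W.Z X.E := ⟨_, rfl⟩
  have hzg : ∀ w, w ∈ Zc ↔ w ∈ W.Z ∧ w ∉ X.E ∧ D.Gd w := by
    intro w
    rw [hZc]
    unfold H35.UB.Zg
    rw [Finset.mem_filter, Finset.mem_sdiff, and_assoc]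
  have hdis : Disjoint Zc X.E := Finset.disjoint_left.2 fun w hw => ((hzg w).1 hw).2.1
  obtain ⟨I, hI⟩ : ∃ I, I = ((Cf Zc (La c S (p ^ κ))).filter (fun b => nr (H35.CF.sp Zc b) ≤ Y ^ C₁ ∧
      ((H35.CF.sp Zc b).card : ℝ) ≤ C₁ * (1 + Real.log (Real.log Y)))).filter
        (fun b => Kc B X W κ₀ b ∧ Sn G Zc b s) := ⟨_, rfl⟩
  have hmI : ∀ b, b ∈ I ↔ (b ∈ Cf Zc (La c S (p ^ κ)) ∧ nr (H35.CF.sp Zc b) ≤ Y ^ C₁ ∧
      ((H35.CF.sp Zc b).card : ℝ) ≤ C₁ * (1 + Real.log (Real.log Y))) ∧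
        Kc B X W κ₀ b ∧ Sn G Zc b s := by
    intro b
    rw [hI, Finset.mem_filter, Finset.mem_filter]
  obtain ⟨m, hm⟩ : ∃ m : (Pl K → Option (La c S (p ^ κ))) → Finset (Pl K),
      m = fun b => H35.CF.sp Zc b ∪ X.E := ⟨_, rfl⟩
  have hmb : ∀ b, H35.CF.sp Zc b ∪ X.E = m b := fun b => by rw [hm]
  have hspd : ∀ b : Pl K → Option (La c S (p ^ κ)), Disjoint (H35.CF.sp Zc b) X.E := fun b =>
    Finset.disjoint_left.2 fun v hv => Finset.disjoint_left.1 hdis (mem_sp.1 hv).1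
  have hnrm : ∀ b, nr (m b) = nr (H35.CF.sp Zc b) * nr X.E := by
    intro b
    rw [← hmb]
    unfold nr
    exact Finset.prod_union (hspd b)
  rw [← hl₀] at hEn
  have hnr : ∀ b ∈ I, nr (m b) ≤ Y ^ c₂ := by
    intro b hb
    obtain ⟨⟨-, h1, -⟩, -⟩ := (hmI b).1 hb
    rw [hnrm]
    refine le_trans ?_ hcY2
    exact mul_le_mul (h1.trans hcY) (hEn.trans hlY) (bx_pos _).le (pow_nonneg hY0.le _)
  have hcE : (X.E.card : ℝ) ≤ 2 * Real.log l₀ := by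
    have h1 := (bx_pow X.E).trans hEn
    have h2 := Real.log_le_log (by positivity) h1
    rw [Real.log_pow] at h2
    have h3 : (1 : ℝ) / 2 ≤ Real.log 2 := by linarith [Real.log_two_gt_d9]
    nlinarith [Nat.cast_nonneg (α := ℝ) X.E.card]
  have hcs : ∀ b ∈ I, ((H35.CF.sp Zc b).card : ℝ) ≤ (2 * c₁ : ℕ) * Real.log l₀ := by
    intro b hb
    obtain ⟨⟨-, -, h1⟩, -⟩ := (hmI b).1 hb
    rw [← hl₀] at h1
    push_cast
    calc ((H35.CF.sp Zc b).card : ℝ) ≤ C₁ * (1 + Real.log l₀) := h1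
      _ ≤ c₁ * (1 + Real.log l₀) := mul_le_mul_of_nonneg_right hc₁ (by linarith)
      _ ≤ c₁ * (Real.log l₀ + Real.log l₀) := by gcongr
      _ = _ := by ring
  have hcm : ∀ b ∈ I, ((m b).card : ℝ) ≤ c₂ * Real.log l₀ := by
    intro b hb
    rw [← hmb]
    have h1 : ((H35.CF.sp Zc b ∪ X.E).card : ℝ) ≤ (H35.CF.sp Zc b).card + X.E.card := by
      exact_mod_cast Finset.card_union_le _ _
    have h2 := hcs b hb
    rw [hc₂]
    push_cast at h2 ⊢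
    have h3 : (0 : ℝ) ≤ Λ * (2 * c₁) * Real.log l₀ := by positivity
    nlinarith
  have hfib : ∀ t, ((I.filter fun b => m b = t).card : ℝ) ≤ l₀ ^ c₂ := by
    intro t
    by_cases ht : ∃ b ∈ I, m b = t
    · obtain ⟨b₀, hb₀, hb₁⟩ := ht
      have h1 : (I.filter fun b => m b = t) ⊆
          (Cf Zc (La c S (p ^ κ))).filter fun b => H35.CF.sp Zc b = H35.CF.sp Zc b₀ := by
        intro b hb
        rw [Finset.mem_filter] at hb ⊢
        refine ⟨((hmI b).1 hb.1).1.1, ?_⟩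
        have h2 : H35.CF.sp Zc b ∪ X.E = H35.CF.sp Zc b₀ ∪ X.E := by
          rw [hmb, hmb, hb.2, hb₁]
        have h3 : ∀ b : Pl K → Option (La c S (p ^ κ)), H35.CF.sp Zc b =
            (H35.CF.sp Zc b ∪ X.E) \ X.E := fun b => by
          rw [Finset.union_sdiff_cancel_right (hspd b)]
        rw [h3 b, h2, ← h3 b₀]
      calc ((I.filter fun b => m b = t).card : ℝ) ≤
            (((Cf Zc (La c S (p ^ κ))).filter fun b => H35.CF.sp Zc b = H35.CF.sp Zc b₀).card : ℝ) := by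
              exact_mod_cast Finset.card_le_card h1
        _ ≤ (Fintype.card (La c S (p ^ κ)) : ℝ) ^ (H35.CF.sp Zc b₀).card := bx_card _ _
        _ ≤ l₀ ^ (Λ * (2 * c₁)) := by
            rw [← hΛ]
            exact bx_lam Λ (2 * c₁) _ (by linarith) (hcs b₀ hb₀)
        _ ≤ l₀ ^ c₂ := by
            refine pow_le_pow_right₀ (by linarith) ?_
            rw [hc₂]
            omega
    · have h1 : (I.filter fun b => m b = t) = ∅ := by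
        rw [Finset.filter_eq_empty_iff]
        exact fun b hb h => ht ⟨b, hb, h⟩
      rw [h1, Finset.card_empty, Nat.cast_zero]
      positivity
  -- one box
  have hbox : ∀ b ∈ I, ∃ Φ : Gal(Ω/K) →* Sd P (Du S (p ^ κ) 1), Unz W.L (m b) Φ ∧
      (∃ (τ : Gal(Ω/K)) (u : ℂ), u ≠ 1 ∧ ∀ y, hf G s (Φ τ * y) = u * hf G s y) ∧
      ‖∑ v ∈ (H35.CF.Fr Zc (PPc X W (T0 ε Y)) b 1).filter
          (fun v => ∀ k, lo k < nm (v k) ∧ (nm (v k) : ℝ) ≤ hi k),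
        ep (p ^ κ) ((sgE X W κ₀ b (W.Wv (v 0))).n.ap (gk 1 (G.y s)))‖ ≤
        (C' * hi 0 ^ (3 / 4 : ℝ) + Real.log Y ^ C') +
          (Gx W.Fr (m b) (hi 0) Φ (hf G s) + Gx W.Fr (m b) (lo 0) Φ (hf G s)) := by
    intro b hb
    have h1 := hnr b hb
    obtain ⟨⟨h2, -, -⟩, h3, h4⟩ := (hmI b).1 hb
    rw [← hmb] at h1 ⊢
    rw [hZc] at h1 h2 h4 ⊢
    exact box_le hp hζ hX hW hD hE hgl hM.symm.le (mem_cf.1 h2) h3 h4 hT
      ((Real.exp_pos _).le.trans hT) hlo1 (fun w hw hw' => hall w hw (hw'.trans hhi)) h1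
      (hhi.trans hcY3)
  choose! Φ hΦ using hbox
  have hft : Fintype (Sd P (Du S (p ^ κ) 1)) := Fintype.ofFinite _
  obtain ⟨h, hh⟩ : ∃ h, h = hf (q := p ^ κ) G s := ⟨_, rfl⟩
  rw [← hh] at hΦ
  have hraw : Raw (p ^ κ) (M + 1) h := by
    rw [hh]
    exact hf_raw G s (Nat.succ_le_succ (Nat.zero_le M))
  -- the black box
  have hgp : ∀ x : ℝ, T0 ε Y ≤ x → x ≤ Y ^ C₁ →
      ∑ b ∈ I, (nr (m b))⁻¹ * x⁻¹ * Gx W.Fr (m b) x (Φ b) h ≤ l₀ ^ (-((a₀ : ℝ) + 2)) := by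
    intro x hx1 hx2
    have h1 := hY₁ Y hYa W.L W.Fr _ I m (fun _ => x)
      (fun b hb => ⟨hnr b hb, by
        rw [← hl₀]
        exact hcm b hb⟩)
      (fun b hb => ⟨hx1, hx2.trans hcY3⟩)
      (fun t => by
        rw [← hl₀]
        exact hfib t)
      (fun _ => Sd P (Du S (p ^ κ) 1)) Φ (fun b => av (Φ b) h) (fun b hb => ⟨?_, ?_, ?_, ?_, ?_⟩)
    · rw [← hl₀] at h1
      refine le_trans (le_of_eq ?_) (h1.trans (le_of_eq ?_))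
      · refine Finset.sum_congr rfl fun b hb => ?_
        obtain ⟨τ, u, hu1, hτ⟩ := (hΦ b hb).2.1
        unfold Gx
        congr 2
        refine Finset.sum_congr rfl fun w _ => ?_
        have h2 : mr (Φ b) (av (Φ b) h) = 0 := av_mean (Φ b) h τ u hu1 hτ
        rw [h2, sub_zero]
      · push_cast
        rfl
    · refine le_trans (Finset.card_le_card (Finset.filter_subset _ _)) ?_
      rw [Finset.card_univ, ← Nat.card_eq_fintype_card, ← hM]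
      omega
    · exact hD.1.to_subgroup _
    · exact ⟨_, raw_sub _ _ hraw, gpv_av (Φ b) h⟩
    · exact (hΦ b hb).1.1
    · exact (hΦ b hb).1.2
  have h1 := hgp (hi 0) (hT.trans hlo1) hhi
  have h2 := hgp (lo 0) hT (hlo1.trans hhi)
  have h3 := hY₂ Y hYb _ I m (fun b hb => hnr b hb) (fun t => by
    rw [← hl₀]
    exact hfib t)
  rw [← hl₀] at h3
  -- the terms
  obtain ⟨er, her⟩ : ∃ er, er = (2 * (C' : ℝ) + l₀ ^ C') * Real.exp (-(l₀ ^ ε) / 4) := ⟨_, rfl⟩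
  have hlo : 0 < lo 0 := (Real.exp_pos _).trans_le hT
  have hhi0 : 0 < hi 0 := hlo.trans_le hlo1
  have hterm : ∀ b ∈ I, (nr (H35.CF.sp Zc b))⁻¹ * (∏ k, lo k)⁻¹ *
      ‖∑ v ∈ (H35.CF.Fr Zc (PPc X W (T0 ε Y)) b 1).filter
          (fun v => ∀ k, lo k < nm (v k) ∧ (nm (v k) : ℝ) ≤ hi k),
        ep (p ^ κ) ((sgE X W κ₀ b (W.Wv (v 0))).n.ap (gk 1 (G.y s)))‖ ≤
      l₀ * (er * (nr (m b))⁻¹ +
        (2 * ((nr (m b))⁻¹ * (hi 0)⁻¹ * Gx W.Fr (m b) (hi 0) (Φ b) h) +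
          (nr (m b))⁻¹ * (lo 0)⁻¹ * Gx W.Fr (m b) (lo 0) (Φ b) h)) := by
    intro b hb
    have hn0 : 0 < nr (m b) := bx_pos _
    have hs0 : 0 < nr (H35.CF.sp Zc b) := bx_pos _
    have hE0 : 0 < nr X.E := bx_pos _
    have hg1 : 0 ≤ Gx W.Fr (m b) (hi 0) (Φ b) h := norm_nonneg _
    have hg2 : 0 ≤ Gx W.Fr (m b) (lo 0) (Φ b) h := norm_nonneg _
    have h15 : (nr (H35.CF.sp Zc b))⁻¹ ≤ l₀ * (nr (m b))⁻¹ := by
      have h4 : (nr (H35.CF.sp Zc b))⁻¹ = nr X.E * (nr (m b))⁻¹ := by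
        rw [hnrm, mul_inv, mul_comm (nr (H35.CF.sp Zc b))⁻¹, ← mul_assoc, mul_inv_cancel₀ hE0.ne',
          one_mul]
      rw [h4]
      exact mul_le_mul_of_nonneg_right hEn (inv_nonneg.2 hn0.le)
    have h16 : (lo 0)⁻¹ ≤ 2 * (hi 0)⁻¹ := by
      rw [← div_eq_mul_inv, inv_eq_one_div, div_le_div_iff₀ hlo hhi0]
      linarith
    have h17 := bx_er (C' := C') (R := l₀ ^ C') (T := l₀ ^ ε) (pow_nonneg (by linarith) _)
      (Real.rpow_nonneg (by linarith) _) (by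
        rw [hl₀]
        exact hT) hlo1 hlo2
    rw [← her] at h17
    rw [Fin.prod_univ_one]
    calc (nr (H35.CF.sp Zc b))⁻¹ * (lo 0)⁻¹ * ‖∑ v ∈ (H35.CF.Fr Zc (PPc X W (T0 ε Y)) b 1).filter
          (fun v => ∀ k, lo k < nm (v k) ∧ (nm (v k) : ℝ) ≤ hi k),
        ep (p ^ κ) ((sgE X W κ₀ b (W.Wv (v 0))).n.ap (gk 1 (G.y s)))‖
        ≤ (l₀ * (nr (m b))⁻¹) * (lo 0)⁻¹ *
            ((C' * hi 0 ^ (3 / 4 : ℝ) + Real.log Y ^ C') +
              (Gx W.Fr (m b) (hi 0) (Φ b) h + Gx W.Fr (m b) (lo 0) (Φ b) h)) := by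
          refine mul_le_mul (mul_le_mul_of_nonneg_right h15 (inv_nonneg.2 hlo.le)) (hΦ b hb).2.2
            (norm_nonneg _) ?_
          positivity
      _ = l₀ * ((nr (m b))⁻¹ * ((lo 0)⁻¹ * (C' * hi 0 ^ (3 / 4 : ℝ) + l₀ ^ C')) +
            ((nr (m b))⁻¹ * ((lo 0)⁻¹ * Gx W.Fr (m b) (hi 0) (Φ b) h) +
              (nr (m b))⁻¹ * (lo 0)⁻¹ * Gx W.Fr (m b) (lo 0) (Φ b) h)) := by
          rw [hl₀]
          ring
      _ ≤ l₀ * ((nr (m b))⁻¹ * er +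
            ((nr (m b))⁻¹ * ((2 * (hi 0)⁻¹) * Gx W.Fr (m b) (hi 0) (Φ b) h) +
              (nr (m b))⁻¹ * (lo 0)⁻¹ * Gx W.Fr (m b) (lo 0) (Φ b) h)) := by
          have h18 : 0 ≤ (nr (m b))⁻¹ := inv_nonneg.2 hn0.le
          have h19 : 0 ≤ l₀ := by linarith
          gcongr
      _ = _ := by ring
  have hsum : ∑ b ∈ (Cf (H35.UB.Zg D W.Z X.E) (La c S (p ^ κ))).filter
        (fun b => nr (H35.CF.sp (H35.UB.Zg D W.Z X.E) b) ≤ Y ^ C₁ ∧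
          ((H35.CF.sp (H35.UB.Zg D W.Z X.E) b).card : ℝ) ≤ C₁ * (1 + Real.log (Real.log Y))),
      (nr (H35.CF.sp (H35.UB.Zg D W.Z X.E) b))⁻¹ * (∏ k, lo k)⁻¹ *
        ‖∑ v ∈ (H35.CF.Fr (H35.UB.Zg D W.Z X.E) (PPc X W (T0 ε Y)) b 1).filter
            (fun v => ∀ k, lo k < nm (v k) ∧ (nm (v k) : ℝ) ≤ hi k),
          (if Kc B X W κ₀ b ∧ Sn G (H35.UB.Zg D W.Z X.E) b s then
            ep (p ^ κ) ((sgE X W κ₀ b (W.Wv (v 0))).n.ap (gk 1 (G.y s))) else 0)‖ =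
      ∑ b ∈ I, (nr (H35.CF.sp Zc b))⁻¹ * (∏ k, lo k)⁻¹ *
      ‖∑ v ∈ (H35.CF.Fr Zc (PPc X W (T0 ε Y)) b 1).filter
          (fun v => ∀ k, lo k < nm (v k) ∧ (nm (v k) : ℝ) ≤ hi k),
        ep (p ^ κ) ((sgE X W κ₀ b (W.Wv (v 0))).n.ap (gk 1 (G.y s)))‖ := by
    rw [← hZc, hI]
    symm
    rw [Finset.sum_filter]
    refine Finset.sum_congr rfl fun b _ => ?_
    by_cases hc : Kc B X W κ₀ b ∧ Sn G Zc b s
    · rw [if_pos hc]
      congr 2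
      exact Finset.sum_congr rfl fun v _ => by rw [if_pos hc]
    · rw [if_neg hc]
      symm
      rw [Finset.sum_eq_zero fun v _ => by rw [if_neg hc], norm_zero, mul_zero]
  rw [hsum]
  refine (Finset.sum_le_sum hterm).trans ?_
  rw [← Finset.mul_sum, Finset.sum_add_distrib, Finset.sum_add_distrib, ← Finset.mul_sum,
    ← Finset.mul_sum, ← hl₀]
  have hl1 : 1 ≤ l₀ := by linarith
  have her0 : 0 ≤ er := by
    rw [her]
    have : 0 ≤ l₀ ^ C' := pow_nonneg (by linarith) _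
    positivity
  have h5 : er * ∑ b ∈ I, (nr (m b))⁻¹ ≤ l₀ ^ (-((a₀ : ℝ) + 2)) := by
    have h6 : l₀ ^ (-((a₀ : ℝ) + 2)) = (l₀ ^ (a₀ + 2))⁻¹ := by
      rw [Real.rpow_neg (by linarith), ← Real.rpow_natCast]
      push_cast
      rfl
    have h7 : 0 < l₀ ^ (a₀ + 2) := pow_pos (by linarith) _
    rw [h6, inv_eq_one_div, le_div_iff₀ h7]
    refine le_trans ?_ (hL₀ l₀ hl0)
    have h8 : 2 * (C' : ℝ) + l₀ ^ C' ≤ l₀ ^ (C' + 2) := by
      have h9 : l₀ ≤ l₀ ^ (C' + 1) := le_self_pow₀ hl1 (by omega)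
      have h10 : l₀ ^ C' ≤ l₀ ^ (C' + 1) := pow_le_pow_right₀ hl1 (by omega)
      have h11 : l₀ ^ (C' + 2) = l₀ * l₀ ^ (C' + 1) := by ring
      nlinarith
    have hl00 : 0 < l₀ := by linarith
    have hl01 : 0 ≤ ∑ b ∈ I, (nr (m b))⁻¹ := Finset.sum_nonneg fun b _ => inv_nonneg.2 (bx_pos _).le
    rw [her]
    calc (2 * (C' : ℝ) + l₀ ^ C') * Real.exp (-(l₀ ^ ε) / 4) * (∑ b ∈ I, (nr (m b))⁻¹) *
          l₀ ^ (a₀ + 2)
        ≤ l₀ ^ (C' + 2) * Real.exp (-(l₀ ^ ε) / 4) * l₀ ^ e * l₀ ^ (a₀ + 2) := by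
          gcongr
      _ = l₀ ^ (C' + 2 + e + (a₀ + 2)) * Real.exp (-(l₀ ^ ε) / 4) := by ring
  have h7 : 0 ≤ l₀ ^ (-((a₀ : ℝ) + 2)) := Real.rpow_nonneg (by linarith) _
  have h6 : l₀ ^ (-(a₀ : ℝ)) = l₀ * (l₀ * l₀ ^ (-((a₀ : ℝ) + 2))) := by
    have h9 : l₀ ^ (-(a₀ : ℝ)) = l₀ ^ (1 : ℝ) * (l₀ ^ (1 : ℝ) * l₀ ^ (-((a₀ : ℝ) + 2))) := by
      rw [← Real.rpow_add (by linarith), ← Real.rpow_add (by linarith)]
      congr 1
      ring
    rwa [Real.rpow_one] at h9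
  have h8 : l₀ ^ (-(a₀ : ℝ)) ≤ l₀ ^ (-A') :=
    Real.rpow_le_rpow_of_exponent_le hl1 (by linarith)
  refine le_trans ?_ h8
  rw [h6]
  refine mul_le_mul_of_nonneg_left ?_ (by linarith)
  calc er * ∑ b ∈ I, (nr (m b))⁻¹ +
        (2 * ∑ b ∈ I, (nr (m b))⁻¹ * (hi 0)⁻¹ * Gx W.Fr (m b) (hi 0) (Φ b) h +
          ∑ b ∈ I, (nr (m b))⁻¹ * (lo 0)⁻¹ * Gx W.Fr (m b) (lo 0) (Φ b) h)
      ≤ l₀ ^ (-((a₀ : ℝ) + 2)) + (2 * l₀ ^ (-((a₀ : ℝ) + 2)) + l₀ ^ (-((a₀ : ℝ) + 2))) := by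
        gcongr
    _ = 4 * l₀ ^ (-((a₀ : ℝ) + 2)) := by ring
    _ ≤ l₀ * l₀ ^ (-((a₀ : ℝ) + 2)) := mul_le_mul_of_nonneg_right hl4 h7

end H62.S3
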