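import Pool.Agent.H71.S3.Od
import Pool.Agent.H62.BL.Sma

/-!
# [H62 S3 BXD] the box inequality for one variable of stage 1 (MP_b39724_nt, stage 3, chapter B, the negligible part `NG`): definitions

* `Sn G Zc b s`: some value of `b` does not vanish at the letter `s`.
* `BxN`: the box inequality for one new place (statement of helper97).
-/

set_option autoImplicit false

open scoped NumberField commutatorElement
open IsDedekindDomain
open scoped Classical

noncomputable section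

namespace H62.S3

open H63.MA H38.BB H38.BG H57.PC H57.BRA H77.WD H77.WE H77.PC3 H35.CF H35.UB H77.S3 H1.S3 H73.S3
  H71.S3

attribute [local instance 50] Fintype.ofFinite

variable {K : Type} [Field K] [NumberField K] {Ω : Type} [Field Ω] [Algebra K Ω]
  {p N : ℕ} {ζ : K} {D : RD0 K p ζ} {Q : DP K Ω} {A : GS D Ω} {P : Type} [Group P]
  {c : CL p N P} {S : Type} [Group S] [MulDistribMulAction P S] {q : ℕ}

/-- some value of `b` does not vanish at the letter `s` -/
def Sn (G : SG c S) (Zc : Finset (Pl K)) (b : Pl K → Option (La c S q)) (s : Px c) : Prop :=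
  ∃ w ∈ Zc, (kv b w).ap (gk 1 (G.y s)) ≠ 0

/-- the box inequality for one new place -/
def BxN [Fintype S] [NeZero q] [Fintype P] (G : SG c S) (B : SD D Q A) (X : FD A P S) (W : WF A)
    (T : ℝ) (Zc : Finset (Pl K)) (C₁ A' Y : ℝ) : Prop :=
  ∀ (κ₀ : J0 X → Du S q 1) (s : Px c) (lo hi : Fin 1 → ℝ),
    (∀ k, T ≤ lo k ∧ lo k ≤ hi k ∧ hi k ≤ 2 * lo k ∧ hi k ≤ Y ^ C₁) →
    ∑ b ∈ (Cf Zc (La c S q)).filter (fun b => nr (sp Zc b) ≤ Y ^ C₁ ∧
        ((sp Zc b).card : ℝ) ≤ C₁ * (1 + Real.log (Real.log Y))),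
      (nr (sp Zc b))⁻¹ * (∏ k, lo k)⁻¹ *
        ‖∑ v ∈ (H35.CF.Fr Zc (PPc X W T) b 1).filter
            (fun v => ∀ k, lo k < nm (v k) ∧ (nm (v k) : ℝ) ≤ hi k),
          (if Kc B X W κ₀ b ∧ Sn G Zc b s then
            ep q ((sgE X W κ₀ b (W.Wv (v 0))).n.ap (gk 1 (G.y s))) else 0)‖ ≤
      Real.log Y ^ (-A')

end H62.S3
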